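import Pool.Agent.VMX.StmtsA

/-!
# VMX squad (MP_e54c4c_gt), row ZGE: general zooms of a sequence of a family
-/

set_option autoImplicit false

open Matrix Filter Topology

namespace Pool.Agent.VMX.H23

open Pool.Agent.PFS Pool.Agent.PFJ Pool.Agent.NBT

theorem zge : ZgeStmt := by
  intro n C Γ Γ₀ hcc K hK F hF x hx r hr
  obtain ⟨φ, g, s, p, hφ, hg, hs, hp, hlim⟩ :=
    hF.cpt (fun k i => r k i • x k i) (fun k => hF.scl _ (hx k) _ (hr k))
  have hy : ∀ m, F (fun i => s m • act (g m) (r (φ m) i • x (φ m) i)) := fun m =>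
    hF.scl _ (hF.inv _ (hF.scl _ (hx (φ m)) _ (hr (φ m))) (g m) (hg m)) (fun _ => s m)
      (fun _ => hs m)
  have hsum : ∀ m, ∑ i, s m • act (g m) (r (φ m) i • x (φ m) i)
      = s m • act (g m) (∑ i, r (φ m) i • x (φ m) i) := by
    intro m
    rw [CC.act_sum, Finset.smul_sum]
  obtain ⟨ψ, W, hψ, hW, hWp, -⟩ := H37.lpsF n C Γ hcc (Fin K) (by simpa using hK)
    (fun m i => s m • act (g m) (r (φ m) i • x (φ m) i)) p (fun m => hF.pes _ (hy m)) hp
    (by simpa only [hsum] using hlim)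
  refine ⟨fun k => φ (ψ k), fun k => g (ψ k), fun k => s (ψ k), W, hφ.comp hψ,
    fun k => hg _, fun k => hs _, ?_, hW⟩
  exact hF.cld (fun k i => s (ψ k) • act (g (ψ k)) (r (φ (ψ k)) i • x (φ (ψ k)) i)) W
    (fun k => hy (ψ k)) hW (by rw [hWp]; exact hp)

end Pool.Agent.VMX.H23
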